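import Mathlib

/-! If the complete symmetric polynomials of complex numbers grow polynomially, the numbers are in the unit
disc. -/

set_option autoImplicit false

namespace Pool.Agent.U282.TF

open Filter

lemma geom_inv (a : ℂ) : (1 - PowerSeries.C a * PowerSeries.X) *
    (PowerSeries.mk fun n => a ^ n) = 1 := by
  ext n
  rw [sub_mul, one_mul, mul_assoc, map_sub, PowerSeries.coeff_C_mul, PowerSeries.coeff_mk,
    PowerSeries.coeff_one]
  cases n with
  | zero => simp
  | succ n =>
    rw [PowerSeries.coeff_succ_X_mul, PowerSeries.coeff_mk, if_neg (Nat.succ_ne_zero n)]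
    ring

theorem disc_of_growth {d : ℕ} (a : Fin d → ℂ)
    (h : ∀ m : ℕ, ‖PowerSeries.coeff m (∏ i, PowerSeries.mk fun n => a i ^ n)‖ ≤
      ((m : ℝ) + 1) ^ d) (j : Fin d) : ‖a j‖ ≤ 1 := by
  classical
  set H : PowerSeries ℂ := ∏ i, PowerSeries.mk fun n => a i ^ n with hH
  set Q : Polynomial ℂ := ∏ i ∈ Finset.univ.erase j, (1 - Polynomial.C (a i) * Polynomial.X)
    with hQ
  have hmul : (Q : PowerSeries ℂ) * H = PowerSeries.mk fun n => a j ^ n := by
    have h1 : (Q : PowerSeries ℂ) =
        ∏ i ∈ Finset.univ.erase j, (1 - PowerSeries.C (a i) * PowerSeries.X) := by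
      have := map_prod (Polynomial.coeToPowerSeries.ringHom (R := ℂ))
        (fun i => 1 - Polynomial.C (a i) * Polynomial.X) (Finset.univ.erase j)
      rw [← hQ] at this
      simpa using this
    rw [h1, hH, ← Finset.mul_prod_erase Finset.univ _ (Finset.mem_univ j), mul_left_comm,
      ← Finset.prod_mul_distrib]
    have h2 : ∏ i ∈ Finset.univ.erase j, (1 - PowerSeries.C (a i) * PowerSeries.X) *
        (PowerSeries.mk fun n => a i ^ n) = 1 := Finset.prod_eq_one fun i _ => geom_inv (a i)
    rw [h2, mul_one]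
  have hsum : Summable fun i => ‖Q.coeff i‖ := by
    refine summable_of_ne_finset_zero (s := Finset.range (Q.natDegree + 1)) fun i hi => ?_
    rw [Polynomial.coeff_eq_zero_of_natDegree_lt, norm_zero]
    rw [Finset.mem_range, not_lt] at hi
    omega
  set B : ℝ := (∑' i, ‖Q.coeff i‖) + 1 with hB
  have hB0 : 0 ≤ ∑' i, ‖Q.coeff i‖ := tsum_nonneg fun _ => norm_nonneg _
  have hBpos : 0 < B := by linarith
  have key : ∀ m : ℕ, ‖a j‖ ^ m ≤ B * ((m : ℝ) + 1) ^ d := by
    intro m
    have h1 := congrArg (PowerSeries.coeff m) hmul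
    rw [PowerSeries.coeff_mk, PowerSeries.coeff_mul] at h1
    rw [← norm_pow, ← h1]
    refine (norm_sum_le _ _).trans ?_
    have h2 : ∀ p ∈ Finset.HasAntidiagonal.antidiagonal m,
        ‖PowerSeries.coeff p.1 (Q : PowerSeries ℂ) * PowerSeries.coeff p.2 H‖ ≤
          ‖Q.coeff p.1‖ * ((m : ℝ) + 1) ^ d := by
      intro p hp
      rw [Finset.HasAntidiagonal.mem_antidiagonal] at hp
      rw [norm_mul, Polynomial.coeff_coe]
      refine mul_le_mul_of_nonneg_left ((h p.2).trans ?_) (norm_nonneg _)
      have h3 : (p.2 : ℝ) ≤ m := by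
        have : p.2 ≤ m := by omega
        exact_mod_cast this
      exact pow_le_pow_left₀ (by positivity) (by linarith) d
    refine (Finset.sum_le_sum h2).trans ?_
    rw [← Finset.sum_mul]
    refine mul_le_mul_of_nonneg_right ?_ (by positivity)
    rw [Finset.Nat.sum_antidiagonal_eq_sum_range_succ (fun i _ => ‖Q.coeff i‖) m]
    have h4 := hsum.sum_le_tsum (Finset.range m.succ) (fun i _ => norm_nonneg _)
    linarith
  by_contra hcon
  rw [not_le] at hcon
  set r := ‖a j‖ with hr
  have hr0 : 0 < r := by linarith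
  have ht := tendsto_pow_const_div_const_pow_of_one_lt d hcon
  obtain ⟨n, hn1, hn2⟩ := ((ht.eventually_lt_const (by positivity : 0 < 1 / (B * r))).and
    (eventually_ge_atTop 1)).exists
  obtain ⟨m, rfl⟩ : ∃ m, n = m + 1 := ⟨n - 1, by omega⟩
  have h1 := key m
  rw [div_lt_div_iff₀ (by positivity) (by positivity), one_mul] at hn1
  push_cast at hn1
  have h2 : r ^ (m + 1) = r ^ m * r := pow_succ _ _
  rw [h2] at hn1
  have h3 := mul_le_mul_of_nonneg_right h1 hr0.le
  linarith

/-- The sum over the weights of the symmetric power. -/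
lemma sum_sym {d m N : ℕ} (a : Fin d → ℂ) (b : Fin N → ℂ)
    (e : Fin N ≃ {k : Fin d → ℕ // ∑ i, k i = m}) (he : ∀ j, b j = ∏ i, a i ^ (e j).1 i) :
    ∑ j, b j = PowerSeries.coeff m (∏ i, PowerSeries.mk fun n => a i ^ n) := by
  classical
  rw [PowerSeries.coeff_prod]
  simp only [PowerSeries.coeff_mk]
  refine Finset.sum_bij (fun j _ => Finsupp.equivFunOnFinite.symm (e j).1) ?_ ?_ ?_ ?_
  · intro j _
    rw [Finset.mem_finsuppAntidiag]
    refine ⟨?_, Finset.subset_univ _⟩
    simpa using (e j).2
  · intro j _ j' _ h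
    apply e.injective
    apply Subtype.ext
    exact Finsupp.equivFunOnFinite.symm.injective h
  · intro l hl
    rw [Finset.mem_finsuppAntidiag] at hl
    refine ⟨e.symm ⟨l, by simpa using hl.1⟩, Finset.mem_univ _, ?_⟩
    simp
  · intro j _
    rw [he]
    simp

lemma card_sym {d m N : ℕ} (e : Fin N ≃ {k : Fin d → ℕ // ∑ i, k i = m}) :
    N ≤ (m + 1) ^ d := by
  have h1 : ∀ (j : Fin N) (i : Fin d), (e j).1 i < m + 1 := by
    intro j i
    have h2 := Finset.single_le_sum (f := (e j).1) (fun _ _ => Nat.zero_le _) (Finset.mem_univ i)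
    rw [(e j).2] at h2
    omega
  have h3 := Fintype.card_le_of_injective
    (fun (j : Fin N) (i : Fin d) => (⟨(e j).1 i, h1 j i⟩ : Fin (m + 1))) (by
      intro j j' h
      apply e.injective
      apply Subtype.ext
      funext i
      have := congrFun h i
      simpa using this)
  simpa using h3

end Pool.Agent.U282.TF
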