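import Mathlib

/-! Bases adapted to two filtrations. -/

set_option autoImplicit false

open Module

namespace Pool.Agent.U282.TF

universe u v

variable {K : Type u} [Field K] {V : Type v} [AddCommGroup V] [Module K V]

/-- An increasing filtration which is `0` at some index and everything at some index. -/
structure IsFil (P : ℤ → Submodule K V) : Prop where
  mono : Monotone P
  bot : ∃ k, P k = ⊥
  top : ∃ k, P k = ⊤

/-- Every term of the filtration `P` is spanned by the basis vectors `b i` with `p i ≤ k`. -/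
def Adapted {I : Type} (b : Basis I K V) (P : ℤ → Submodule K V) (p : I → ℤ) : Prop :=
  ∀ k, P k = Submodule.span K (b '' {i | p i ≤ k})

lemma adapt_cons {n : ℕ} {P : ℤ → Submodule K V} (hP : Monotone P) {f : V →ₗ[K] K} {v : V}
    (hv : f v ≠ 0) (b : Basis (Fin n) K (LinearMap.ker f)) {p : Fin n → ℤ}
    (hb : Adapted b (fun k => (P k).comap (LinearMap.ker f).subtype) p) {q : ℤ}
    (h1 : ∀ j < q, P j ≤ LinearMap.ker f) (h2 : v ∈ P q) (c : Basis (Fin (n + 1)) K V)
    (hc : ⇑c = Fin.cons v (fun i => ((b i : LinearMap.ker f) : V))) :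
    Adapted c P (Fin.cons q p) := by
  intro k
  have h3 : (P k ⊓ LinearMap.ker f : Submodule K V) =
      Submodule.span K ((fun i => ((b i : LinearMap.ker f) : V)) '' {i | p i ≤ k}) := by
    have h4 := congrArg (Submodule.map (LinearMap.ker f).subtype) (hb k)
    rw [Submodule.map_comap_subtype, Submodule.map_span, ← Set.image_comp] at h4
    rw [inf_comm, h4]
    rfl
  have h5 : (P k ⊓ LinearMap.ker f : Submodule K V) ≤
      Submodule.span K (c '' {i | (Fin.cons q p : Fin (n + 1) → ℤ) i ≤ k}) := by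
    rw [h3]
    apply Submodule.span_mono
    rintro _ ⟨i, hi, rfl⟩
    refine ⟨i.succ, ?_, ?_⟩
    · simpa using hi
    · rw [hc]; simp
  apply le_antisymm
  · intro x hx
    rcases lt_or_ge k q with h6 | h6
    · exact h5 (Submodule.mem_inf.2 ⟨hx, h1 k h6 hx⟩)
    · have hvk : v ∈ P k := hP h6 h2
      have hvs : v ∈ Submodule.span K (c '' {i | (Fin.cons q p : Fin (n + 1) → ℤ) i ≤ k}) := by
        apply Submodule.subset_span
        refine ⟨0, ?_, ?_⟩
        · simpa using h6
        · rw [hc]; simp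
      have h7 : x - (f x / f v) • v ∈ (P k ⊓ LinearMap.ker f : Submodule K V) := by
        refine Submodule.mem_inf.2 ⟨Submodule.sub_mem _ hx (Submodule.smul_mem _ _ hvk), ?_⟩
        rw [LinearMap.mem_ker, map_sub, map_smul, smul_eq_mul, div_mul_cancel₀ _ hv, sub_self]
      have h8 := Submodule.add_mem _ (h5 h7) (Submodule.smul_mem _ (f x / f v) hvs)
      rwa [sub_add_cancel] at h8
  · rw [Submodule.span_le]
    rintro _ ⟨i, hi, rfl⟩
    rw [hc]
    refine Fin.cases ?_ (fun i => ?_) i (motive := fun i => (Fin.cons q p : Fin (n + 1) → ℤ) i ≤ k →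
      (Fin.cons v (fun i => ((b i : LinearMap.ker f) : V)) : Fin (n + 1) → V) i ∈ (P k : Set V)) hi
    · intro hi
      simp only [Fin.cons_zero] at hi ⊢
      exact hP hi h2
    · intro hi
      simp only [Fin.cons_succ] at hi ⊢
      have h9 : ((b i : LinearMap.ker f) : V) ∈ (P k ⊓ LinearMap.ker f : Submodule K V) := by
        rw [h3]
        exact Submodule.subset_span ⟨i, hi, rfl⟩
      exact (Submodule.mem_inf.1 h9).1

lemma IsFil.comap {P : ℤ → Submodule K V} (hP : IsFil P) (H : Submodule K V) :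
    IsFil (fun k => (P k).comap H.subtype) where
  mono := fun _ _ h => Submodule.comap_mono (hP.mono h)
  bot := by
    obtain ⟨k, hk⟩ := hP.bot
    refine ⟨k, ?_⟩
    rw [hk, Submodule.comap_bot, Submodule.ker_subtype]
  top := by
    obtain ⟨k, hk⟩ := hP.top
    refine ⟨k, ?_⟩
    rw [hk, Submodule.comap_top]

/-- The last index at which a filtration is contained in a proper subspace. -/
lemma IsFil.exists_jump {P : ℤ → Submodule K V} (hP : IsFil P) {H : Submodule K V} (hH : H ≠ ⊤) :
    ∃ q, (∀ j < q, P j ≤ H) ∧ ¬ P q ≤ H := by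
  classical
  obtain ⟨k0, hk0⟩ := hP.bot
  obtain ⟨k1, hk1⟩ := hP.top
  have hne : ∃ n : ℕ, ¬ P (k0 + n) ≤ H := by
    refine ⟨(k1 - k0).toNat, fun h => hH ?_⟩
    rw [eq_top_iff, ← hk1]
    exact (hP.mono (by omega)).trans h
  refine ⟨k0 + (Nat.find hne : ℕ), fun j hj => ?_, Nat.find_spec hne⟩
  rcases lt_or_ge j k0 with h | h
  · exact (hP.mono h.le).trans (hk0 ▸ bot_le)
  · obtain ⟨m, rfl⟩ : ∃ m : ℕ, j = k0 + m := ⟨(j - k0).toNat, by omega⟩
    have h2 : m < Nat.find hne := by omega
    exact not_not.1 (Nat.find_min hne h2)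

theorem exists_adapted (n : ℕ) : ∀ (V : Type v) [AddCommGroup V] [Module K V]
    [Module.Finite K V], finrank K V = n → ∀ (P W : ℤ → Submodule K V), IsFil P → IsFil W →
    ∃ (b : Basis (Fin n) K V) (p w : Fin n → ℤ), Adapted b P p ∧ Adapted b W w := by
  induction n with
  | zero =>
    intro V _ _ _ hV P W _ _
    have := finrank_zero_iff.1 hV
    refine ⟨Basis.empty V, fun _ => 0, fun _ => 0, fun k => Subsingleton.elim _ _,
      fun k => Subsingleton.elim _ _⟩
  | succ n ih =>
    intro V _ _ _ hV P W hP hW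
    have hnt : Nontrivial V := finrank_pos_iff.1 (by omega : 0 < finrank K V)
    obtain ⟨k, hk, hk'⟩ := hP.exists_jump (H := (⊥ : Submodule K V)) bot_ne_top
    -- the last index `q` with `P q = ⊤` and `P (q - 1) < ⊤`
    obtain ⟨q, hq1, hq2⟩ : ∃ q, P (q - 1) ≠ ⊤ ∧ P q = ⊤ := by
      classical
      obtain ⟨k0, hk0⟩ := hP.bot
      obtain ⟨k1, hk1⟩ := hP.top
      have hne : ∃ n : ℕ, P (k0 + n) = ⊤ := by
        refine ⟨(k1 - k0).toNat, ?_⟩
        rw [eq_top_iff, ← hk1]
        exact hP.mono (by omega)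
      refine ⟨k0 + (Nat.find hne : ℕ), ?_, Nat.find_spec hne⟩
      rcases Nat.eq_zero_or_pos (Nat.find hne) with h | h
      · have h1 := Nat.find_spec hne
        rw [h, Nat.cast_zero, add_zero, hk0] at h1
        exact absurd h1 bot_ne_top
      · have h2 := Nat.find_min hne (m := Nat.find hne - 1) (by omega)
        rwa [Nat.cast_sub h, Nat.cast_one, ← add_sub_assoc] at h2
    obtain ⟨f, hf0, hf⟩ := Submodule.exists_le_ker_of_lt_top _ (lt_top_iff_ne_top.2 hq1)
    have hH : LinearMap.ker f ≠ ⊤ := fun h => hf0 (LinearMap.ker_eq_top.1 h)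
    have hfr : finrank K (LinearMap.ker f) = n := by
      have := Module.Dual.finrank_ker_add_one_of_ne_zero (f := f) hf0
      omega
    obtain ⟨m, hm1, hm2⟩ := hW.exists_jump hH
    obtain ⟨v, hv, hvH⟩ := Set.not_subset.1 hm2
    have hfv : f v ≠ 0 := fun h => hvH (LinearMap.mem_ker.2 h)
    obtain ⟨b, p, w, hbp, hbw⟩ := ih (LinearMap.ker f) hfr _ _ (hP.comap _) (hW.comap _)
    have hli : ∀ (c : K), ∀ x ∈ LinearMap.ker f, c • v + x = 0 → c = 0 := by
      intro c x hx h
      have h1 := congrArg f h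
      rw [map_add, map_smul, LinearMap.mem_ker.1 hx, add_zero, map_zero, smul_eq_mul] at h1
      exact (mul_eq_zero.1 h1).resolve_right hfv
    have hsp : ∀ z : V, ∃ c : K, z + c • v ∈ LinearMap.ker f := by
      intro z
      refine ⟨-(f z / f v), ?_⟩
      rw [LinearMap.mem_ker, map_add, map_smul, smul_eq_mul, neg_mul, div_mul_cancel₀ _ hfv,
        add_neg_cancel]
    have hc : ⇑(Basis.mkFinCons v b hli hsp) = Fin.cons v (fun i => ((b i : LinearMap.ker f) : V)) :=
      Basis.coe_mkFinCons v b hli hsp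
    refine ⟨Basis.mkFinCons v b hli hsp, Fin.cons q p, Fin.cons m w,
      adapt_cons hP.mono hfv b hbp (fun j hj => ?_) (by rw [hq2]; exact Submodule.mem_top) _ hc,
      adapt_cons hW.mono hfv b hbw hm1 hv _ hc⟩
    exact (hP.mono (by omega)).trans hf

end Pool.Agent.U282.TF
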