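import Pool.Agent.Y163.MW.Comb

/-! The number of the words of a given sum (Littlewood-Offord bound). -/

set_option autoImplicit false

open Filter Topology

namespace Pool.Agent.U282.TF

variable {I : Type} [Fintype I]

/-- The number of the words of length `n` of sum `x`. -/
def words (δ : I → ℤ) : ℕ → ℤ → ℕ
  | 0, x => if x = 0 then 1 else 0
  | n + 1, x => ∑ i, words δ n (x - δ i)

lemma words_eq (δ : I → ℤ) (n : ℕ) (x : ℤ) :
    words δ n x = Nat.card {g : Fin n → I // ∑ k, δ (g k) = x} := by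
  classical
  induction n generalizing x with
  | zero =>
    rw [words]
    split_ifs with h
    · subst h
      have : Nat.card {g : Fin 0 → I // ∑ k, δ (g k) = 0} = 1 := by
        rw [Nat.card_eq_one_iff_unique]
        refine ⟨⟨fun a b => Subtype.ext (Subsingleton.elim _ _)⟩, ⟨⟨Fin.elim0, by simp⟩⟩⟩
      exact this.symm
    · have : IsEmpty {g : Fin 0 → I // ∑ k, δ (g k) = x} := by
        constructor
        rintro ⟨g, hg⟩
        apply h
        rw [← hg]
        simp
      exact (Nat.card_of_isEmpty).symm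
  | succ n ih =>
    rw [words]
    simp only [ih]
    have e : {g : Fin (n + 1) → I // ∑ k, δ (g k) = x} ≃
        Σ i : I, {g : Fin n → I // ∑ k, δ (g k) = x - δ i} :=
      { toFun := fun g => ⟨g.1 0, ⟨fun k => g.1 k.succ, by
          have h := g.2
          rw [Fin.sum_univ_succ] at h
          linarith⟩⟩
        invFun := fun p => ⟨Fin.cons p.1 p.2.1, by
          have h := p.2.2
          rw [Fin.sum_univ_succ]
          simp only [Fin.cons_zero, Fin.cons_succ]
          linarith⟩
        left_inv := fun g => by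
          apply Subtype.ext
          exact Fin.cons_self_tail g.1
        right_inv := fun p => by
          obtain ⟨i, g, hg⟩ := p
          rfl }
    rw [Nat.card_congr e, Nat.card_sigma]

/-- The sum over a progression. -/
def prog (δ : I → ℤ) (d : ℤ) (n : ℕ) (x : ℤ) (m : ℕ) : ℕ :=
  ∑ j ∈ Finset.range m, words δ n (x + j * d)

/-- The sum over `-m < s ≤ m`. -/
noncomputable def mid (a : I → ℤ) (n m : ℕ) : ℕ := ∑ s ∈ Finset.Ioc (-(m : ℤ)) m, words a n s

lemma prog_step (δ : I → ℤ) (d : ℤ) (n : ℕ) (y : ℤ) (m : ℕ) :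
    prog δ d n y (m + 1) + prog δ d n (y + d) (m + 1) =
      prog δ d n y (m + 2) + prog δ d n (y + d) m := by
  unfold prog
  have h1 : ∑ j ∈ Finset.range (m + 1), words δ n (y + d + (j : ℤ) * d) =
      ∑ j ∈ Finset.range m, words δ n (y + d + (j : ℤ) * d) + words δ n (y + ((m + 1 : ℕ) : ℤ) * d) := by
    rw [Finset.sum_range_succ]
    congr 2
    push_cast
    ring
  rw [h1, Finset.sum_range_succ _ (m + 1)]
  ring

lemma shift_Ioc (F : ℤ → ℕ) (p q r : ℤ) :
    ∑ s ∈ Finset.Ioc p q, F (s + r) = ∑ s ∈ Finset.Ioc (p + r) (q + r), F s := by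
  rw [← Finset.map_add_right_Ioc, Finset.sum_map]
  rfl

lemma mid_step (h : ℤ → ℕ) (m : ℕ) :
    ∑ s ∈ Finset.Ioc (-((m : ℤ) + 1)) (m + 1), h (s + -1) +
      ∑ s ∈ Finset.Ioc (-((m : ℤ) + 1)) (m + 1), h (s + 1) =
    ∑ s ∈ Finset.Ioc (-((m : ℤ) + 2)) (m + 2), h s + ∑ s ∈ Finset.Ioc (-(m : ℤ)) m, h s := by
  rw [shift_Ioc, shift_Ioc]
  have e1 : Finset.Ioc (-((m : ℤ) + 2)) (m + 2) =
      Finset.Ioc (-((m : ℤ) + 2)) m ∪ Finset.Ioc (m : ℤ) (m + 2) := by
    ext s; simp only [Finset.mem_Ioc, Finset.mem_union]; omega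
  have e2 : Finset.Ioc (-(m : ℤ)) (m + 2) =
      Finset.Ioc (-(m : ℤ)) m ∪ Finset.Ioc (m : ℤ) (m + 2) := by
    ext s; simp only [Finset.mem_Ioc, Finset.mem_union]; omega
  have d1 : Disjoint (Finset.Ioc (-((m : ℤ) + 2)) (m : ℤ)) (Finset.Ioc (m : ℤ) (m + 2)) := by
    rw [Finset.disjoint_left]
    intro s hs hs'
    simp only [Finset.mem_Ioc] at hs hs'
    omega
  have d2 : Disjoint (Finset.Ioc (-(m : ℤ)) (m : ℤ)) (Finset.Ioc (m : ℤ) (m + 2)) := by
    rw [Finset.disjoint_left]
    intro s hs hs'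
    simp only [Finset.mem_Ioc] at hs hs'
    omega
  have e3 : (-((m : ℤ) + 1) + -1) = -((m : ℤ) + 2) := by ring
  have e4 : ((m : ℤ) + 1 + -1) = m := by ring
  have e5 : (-((m : ℤ) + 1) + 1) = -(m : ℤ) := by ring
  have e6 : ((m : ℤ) + 1 + 1) = m + 2 := by ring
  rw [e3, e4, e5, e6, e1, e2, Finset.sum_union d1, Finset.sum_union d2]
  ring

theorem prog_le [DecidableEq I] {δ a : I → ℤ} {i₀ i₁ : I} (h01 : i₀ ≠ i₁) (hδ : δ i₀ ≠ δ i₁)
    (h0 : a i₀ = 1) (h1 : a i₁ = -1) (h2 : ∀ i, i ≠ i₀ → i ≠ i₁ → a i = 0) (n : ℕ) :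
    ∀ (x : ℤ) (m : ℕ), prog δ (δ i₀ - δ i₁) n x m ≤ mid a n m := by
  have hd : δ i₀ - δ i₁ ≠ 0 := sub_ne_zero.2 hδ
  set d := δ i₀ - δ i₁ with hd'
  induction n with
  | zero =>
    intro x m
    rcases Nat.eq_zero_or_pos m with rfl | hm
    · simp [prog]
    · have e1 : mid a 0 m = 1 := by
        unfold mid
        rw [Finset.sum_eq_single_of_mem (0 : ℤ)]
        · simp [words]
        · rw [Finset.mem_Ioc]; omega
        · intro s _ hs
          simp [words, hs]
      rw [e1]
      unfold prog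
      by_cases hex : ∃ j ∈ Finset.range m, x + (j : ℤ) * d = 0
      · obtain ⟨j, hj, hj0⟩ := hex
        rw [Finset.sum_eq_single_of_mem j hj]
        · simp [words, hj0]
        · intro j' _ hj'
          have h3 : x + (j' : ℤ) * d ≠ 0 := by
            intro h4
            apply hj'
            have h5 : ((j' : ℤ) - j) * d = 0 := by linarith
            have h6 := (mul_eq_zero.1 h5).resolve_right hd
            omega
          simp [words, h3]
      · push Not at hex
        rw [Finset.sum_eq_zero]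
        · exact Nat.zero_le _
        · intro j hj
          simp [words, hex j hj]
  | succ n ih =>
    intro x m
    rcases m with _ | m
    · simp [prog]
    have e0 : ∀ F : I → ℕ, ∑ i, F i = F i₀ + F i₁ + ∑ i ∈ (Finset.univ.erase i₀).erase i₁, F i := by
      intro F
      rw [← Finset.add_sum_erase _ _ (Finset.mem_univ i₀),
        ← Finset.add_sum_erase _ _ (Finset.mem_erase.2 ⟨h01.symm, Finset.mem_univ i₁⟩)]
      ring
    have e1 : prog δ d (n + 1) x (m + 1) = ∑ i, prog δ d n (x - δ i) (m + 1) := by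
      unfold prog
      simp only [words]
      rw [Finset.sum_comm]
      refine Finset.sum_congr rfl fun i _ => Finset.sum_congr rfl fun j _ => ?_
      congr 1
      ring
    have e2 : mid a (n + 1) (m + 1) = mid a n (m + 2) + mid a n m +
        ∑ i ∈ (Finset.univ.erase i₀).erase i₁, mid a n (m + 1) := by
      unfold mid
      simp only [words]
      rw [Finset.sum_comm, e0, h0, h1]
      have h3 := mid_step (words a n) m
      have e3 : ∀ s : ℤ, s - 1 = s + -1 := fun s => by ring
      have e4 : ∀ s : ℤ, s - -1 = s + 1 := fun s => by ring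
      simp only [e3, e4]
      push_cast
      rw [h3]
      congr 1
      refine Finset.sum_congr rfl fun i hi => ?_
      obtain ⟨hi1, hi2⟩ := Finset.mem_erase.1 hi
      rw [h2 i (Finset.mem_erase.1 hi2).1 hi1]
      simp
    rw [e1, e0, e2]
    have h3 : prog δ d n (x - δ i₀) (m + 1) + prog δ d n (x - δ i₁) (m + 1) ≤
        mid a n (m + 2) + mid a n m := by
      have h4 := prog_step δ d n (x - δ i₀) m
      have e5 : x - δ i₀ + d = x - δ i₁ := by rw [hd']; ring
      rw [e5] at h4
      rw [h4]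
      exact Nat.add_le_add (ih _ _) (ih _ _)
    exact Nat.add_le_add h3 (Finset.sum_le_sum fun i _ => ih _ _)

/-- **The bound.** -/
theorem words_bound (δ : I → ℤ) (h : ∃ i, δ i ≠ 0) :
    ∃ C : ℝ, ∀ n : ℕ, 1 ≤ n → (Nat.card {g : Fin n → I // ∑ k, δ (g k) = 0} : ℝ) * √(n : ℝ) ≤
      C * (Fintype.card I : ℝ) ^ n := by
  classical
  by_cases hc : ∀ i j, δ i = δ j
  · obtain ⟨i, hi⟩ := h
    refine ⟨0, fun n hn => ?_⟩
    have : IsEmpty {g : Fin n → I // ∑ k, δ (g k) = 0} := by
      constructor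
      rintro ⟨g, hg⟩
      rw [Finset.sum_congr rfl fun k _ => hc (g k) i, Finset.sum_const, Finset.card_univ,
        Fintype.card_fin, nsmul_eq_mul] at hg
      rcases mul_eq_zero.1 hg with h1 | h1
      · exact absurd (Nat.cast_eq_zero.1 h1) (by omega)
      · exact hi h1
    rw [Nat.card_of_isEmpty]
    simp
  · push Not at hc
    obtain ⟨i₀, i₁, hδ⟩ := hc
    have h01 : i₀ ≠ i₁ := fun h => hδ (by rw [h])
    let a : I → ℤ := fun i => if i = i₀ then 1 else if i = i₁ then -1 else 0
    have ha0 : a i₀ = 1 := if_pos rfl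
    have ha1 : a i₁ = -1 := by
      show (if i₁ = i₀ then (1 : ℤ) else if i₁ = i₁ then -1 else 0) = -1
      rw [if_neg h01.symm, if_pos rfl]
    have ha2 : ∀ i, i ≠ i₀ → i ≠ i₁ → a i = 0 := fun i h0 h1 => by
      show (if i = i₀ then (1 : ℤ) else if i = i₁ then -1 else 0) = 0
      rw [if_neg h0, if_neg h1]
    have hsw : ∀ i, a (Equiv.swap i₀ i₁ i) = -a i := by
      intro i
      rcases eq_or_ne i i₀ with rfl | h3
      · rw [Equiv.swap_apply_left, ha0, ha1]
      · rcases eq_or_ne i i₁ with rfl | h4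
        · rw [Equiv.swap_apply_right, ha0, ha1]; ring
        · rw [Equiv.swap_apply_of_ne_of_ne h3 h4, ha2 i h3 h4]; ring
    have hsym : ∀ r : ℤ, Nat.card {i : I // a i = r} = Nat.card {i : I // a i = -r} := by
      intro r
      refine Nat.card_congr ((Equiv.swap i₀ i₁).subtypeEquiv fun i => ?_)
      rw [hsw]
      omega
    have hlim := Pool.Agent.Y163.MW.lim_count a hsym ⟨i₀, i₁, by rw [ha0, ha1]; norm_num⟩
    obtain ⟨C, hC⟩ := hlim.bddAbove_range
    refine ⟨C, fun n _ => ?_⟩
    have h3 := hC ⟨n, rfl⟩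
    have hI : (0 : ℝ) < (Fintype.card I : ℝ) ^ n := by
      have : 0 < Fintype.card I := Fintype.card_pos_iff.2 ⟨i₀⟩
      positivity
    have h4 : Nat.card {g : Fin n → I // ∑ k, δ (g k) = 0} ≤
        Nat.card {g : Fin n → I // ∑ k, a (g k) = 0 ∨ ∑ k, a (g k) = 1} := by
      have h5 := prog_le h01 hδ ha0 ha1 ha2 n 0 1
      have e1 : prog δ (δ i₀ - δ i₁) n 0 1 = words δ n 0 := by simp [prog]
      have e2 : mid a n 1 = words a n 0 + words a n 1 := by
        unfold mid
        have : Finset.Ioc (-((1 : ℕ) : ℤ)) ((1 : ℕ) : ℤ) = {0, 1} := by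
          ext s; simp only [Finset.mem_Ioc, Finset.mem_insert, Finset.mem_singleton]; omega
        rw [this, Finset.sum_pair (by norm_num)]
      rw [e1, e2, words_eq, words_eq, words_eq] at h5
      refine h5.trans (le_of_eq ?_)
      rw [Nat.card_eq_fintype_card, Nat.card_eq_fintype_card, Nat.card_eq_fintype_card,
        Fintype.card_subtype, Fintype.card_subtype, Fintype.card_subtype,
        ← Finset.card_union_of_disjoint]
      · congr 1
        ext g
        simp
      · rw [Finset.disjoint_filter]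
        intro g _ h6 h7
        omega
    have h5 : (Nat.card {g : Fin n → I // ∑ k, δ (g k) = 0} : ℝ) ≤
        Nat.card {g : Fin n → I // ∑ k, a (g k) = 0 ∨ ∑ k, a (g k) = 1} := by exact_mod_cast h4
    have h6 : √(n : ℝ) * ((Nat.card {g : Fin n → I // ∑ k, a (g k) = 0 ∨ ∑ k, a (g k) = 1} : ℝ) /
        (Fintype.card I : ℝ) ^ n) ≤ C := h3
    rw [← mul_div_assoc, div_le_iff₀ hI] at h6
    refine le_trans ?_ h6
    rw [mul_comm]
    exact mul_le_mul_of_nonneg_left h5 (Real.sqrt_nonneg _)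

end Pool.Agent.U282.TF
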