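import Pool.Agent.U282.TF.Tensor
import Pool.Agent.U282.TF.Bound

/-! The square root law for the relative position of two filtrations on the tensor powers. -/

set_option autoImplicit false

open Module Filter
open scoped TensorProduct

namespace Pool.Agent.U282.TF

universe u v v'

variable {K : Type u} [Field K] {V : Type v} [AddCommGroup V] [Module K V]

lemma Adapted.mem_iff {I : Type} {b : Basis I K V} {P : ℤ → Submodule K V} {p : I → ℤ}
    (h : Adapted b P p) (i : I) (k : ℤ) : b i ∈ P k ↔ p i ≤ k := by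
  classical
  rw [h k, Basis.mem_span_image, Basis.repr_self]
  constructor
  · intro h1
    exact h1 (by simp)
  · intro h1 j hj
    have h2 : j = i := by
      by_contra hne
      have h3 := Finsupp.mem_support_iff.1 (Finset.mem_coe.1 hj)
      rw [Finsupp.single_apply, if_neg (Ne.symm hne)] at h3
      exact h3 rfl
    rw [h2]
    exact h1

/-- There are no odd indices in `W`, and `W_(2 k) = P_k`. -/
def Agree (P W : ℤ → Submodule K V) : Prop :=
  (∀ k : ℤ, W (2 * k + 1) = W (2 * k)) ∧ ∀ k : ℤ, W (2 * k) = P k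

lemma agree_iff {I : Type} {b : Basis I K V} {P W : ℤ → Submodule K V} {p w : I → ℤ}
    (hp : Adapted b P p) (hw : Adapted b W w) : Agree P W ↔ ∀ i, w i = 2 * p i := by
  constructor
  · rintro ⟨h1, h2⟩ i
    have h3 : w i ≤ 2 * p i := by
      rw [← hw.mem_iff, h2, hp.mem_iff]
    have h4 : ¬ w i ≤ 2 * (p i - 1) + 1 := by
      rw [← hw.mem_iff, h1, h2, hp.mem_iff]
      omega
    omega
  · intro h
    constructor
    · intro k
      rw [hw, hw]
      congr 2
      ext i
      show w i ≤ 2 * k + 1 ↔ w i ≤ 2 * k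
      have := h i
      omega
    · intro k
      rw [hw, hp]
      congr 2
      ext i
      show w i ≤ 2 * k ↔ p i ≤ k
      have := h i
      omega

lemma Adapted.pull {V' : Type v'} [AddCommGroup V'] [Module K V'] {I : Type} (e : V ≃ₗ[K] V')
    {b : Basis I K V'} {P : ℤ → Submodule K V} {P' : ℤ → Submodule K V'} {p : I → ℤ}
    (h : ∀ k, (P k).map e.toLinearMap = P' k) (hb : Adapted b P' p) :
    Adapted (b.map e.symm) P p := by
  intro k
  have h1 : P k = ((P k).map e.toLinearMap).map e.symm.toLinearMap := by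
    rw [← Submodule.map_comp]
    have : e.symm.toLinearMap ∘ₗ e.toLinearMap = LinearMap.id := by
      ext x; simp
    rw [this, Submodule.map_id]
  rw [h1, h k, hb k, Submodule.map_span, ← Set.image_comp]
  rfl

/-- The numbers for a space which is identified with the tensor power. -/
theorem diag_power [Module.Finite K V] {P W : ℤ → Submodule K V} {N : ℕ}
    {b : Basis (Fin N) K V} {p w : Fin N → ℤ} (hp : Adapted b P p) (hw : Adapted b W w)
    {V' : Type v'} [AddCommGroup V'] [Module K V'] {n : ℕ} (e : V' ≃ₗ[K] (⨂[K] _ : Fin n, V))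
    {P' W' : ℤ → Submodule K V'} (hP : ∀ k, (P' k).map e.toLinearMap = tensorFil P n k)
    (hW : ∀ k, (W' k).map e.toLinearMap = tensorFil W n k) :
    diag P' W' = Nat.card {g : Fin n → Fin N // ∑ k, (w (g k) - 2 * p (g k)) = 0} ∧
      finrank K V' = N ^ n := by
  have h1 := (adapted_tensor hp n).pull e hP
  have h2 := (adapted_tensor hw n).pull e hW
  constructor
  · rw [diag_eq h1 h2]
    congr 1
    refine Nat.card_congr (Equiv.subtypeEquivRight fun g => ?_)
    rw [Finset.sum_sub_distrib, ← Finset.mul_sum]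
    omega
  · rw [finrank_eq_nat_card_basis ((Basis.piTensorProduct fun _ : Fin n => b).map e.symm),
      Nat.card_eq_fintype_card, Fintype.card_fun, Fintype.card_fin, Fintype.card_fin]

theorem agree_iff_diag [Module.Finite K V] {P W : ℤ → Submodule K V} (hP : IsFil P)
    (hW : IsFil W) : Agree P W ↔ diag P W = finrank K V := by
  classical
  obtain ⟨b, p, w, hp, hw⟩ := exists_adapted (finrank K V) V rfl P W hP hW
  rw [agree_iff hp hw, diag_eq hp hw]
  constructor
  · intro h
    rw [Nat.card_congr (Equiv.subtypeUnivEquiv h), Nat.card_eq_fintype_card, Fintype.card_fin]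
  · intro h i
    by_contra hi
    have h1 := Fintype.card_subtype_lt (p := fun i => w i = 2 * p i) hi
    rw [Fintype.card_fin, ← Nat.card_eq_fintype_card] at h1
    have h2 : Nat.card {i // w i = 2 * p i} = finrank K V := by exact_mod_cast h
    omega

/-- **The square root law.** -/
theorem sqrt_law [Module.Finite K V] {P W : ℤ → Submodule K V} (hP : IsFil P) (hW : IsFil W)
    (h : ¬ Agree P W) : 0 < finrank K V ∧ ∃ C : ℝ, ∀ (n : ℕ) (V' : Type v') [AddCommGroup V']
      [Module K V'] (e : V' ≃ₗ[K] (⨂[K] _ : Fin n, V)) (P' W' : ℤ → Submodule K V'),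
      1 ≤ n → (∀ k, (P' k).map e.toLinearMap = tensorFil P n k) →
      (∀ k, (W' k).map e.toLinearMap = tensorFil W n k) →
      (diag P' W' : ℝ) * √(n : ℝ) ≤ C * finrank K V' := by
  obtain ⟨b, p, w, hp, hw⟩ := exists_adapted (finrank K V) V rfl P W hP hW
  rw [agree_iff hp hw] at h
  push Not at h
  obtain ⟨i, hi⟩ := h
  obtain ⟨C, hC⟩ := words_bound (fun i => w i - 2 * p i) ⟨i, sub_ne_zero.2 hi⟩
  refine ⟨lt_of_le_of_lt (Nat.zero_le _) i.2, C, fun n V' _ _ e P' W' hn hP' hW' => ?_⟩
  obtain ⟨h1, h2⟩ := diag_power hp hw e hP' hW'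
  have h3 := hC n hn
  rw [Fintype.card_fin] at h3
  rw [h1, h2]
  push_cast
  exact h3

theorem agree_power [Module.Finite K V] {P W : ℤ → Submodule K V} (hP : IsFil P) (hW : IsFil W)
    (h : Agree P W) {V' : Type v'} [AddCommGroup V'] [Module K V'] {n : ℕ}
    (e : V' ≃ₗ[K] (⨂[K] _ : Fin n, V)) {P' W' : ℤ → Submodule K V'}
    (hP' : ∀ k, (P' k).map e.toLinearMap = tensorFil P n k)
    (hW' : ∀ k, (W' k).map e.toLinearMap = tensorFil W n k) :
    diag P' W' = finrank K V' := by
  obtain ⟨b, p, w, hp, hw⟩ := exists_adapted (finrank K V) V rfl P W hP hW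
  rw [agree_iff hp hw] at h
  obtain ⟨h1, h2⟩ := diag_power hp hw e hP' hW'
  rw [h1, h2]
  have h3 : ∀ g : Fin n → Fin (finrank K V), ∑ k, (w (g k) - 2 * p (g k)) = 0 := fun g =>
    Finset.sum_eq_zero fun k _ => by rw [h, sub_self]
  rw [Nat.card_congr (Equiv.subtypeUnivEquiv h3), Nat.card_eq_fintype_card, Fintype.card_fun,
    Fintype.card_fin, Fintype.card_fin]

end Pool.Agent.U282.TF
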