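import Pool.Agent.U282.TF.Core

/-! The share of the odd indices of a filtration on the tensor powers. -/

set_option autoImplicit false

open Module Filter Topology
open scoped TensorProduct

namespace Pool.Agent.U282.TF

universe u v v'

open Pool.Agent.Y163.MW (finrank_span_image)

variable {K : Type u} [Field K] {V : Type v} [AddCommGroup V] [Module K V]

/-- The sum of the dimensions of the `gr^W_m`, `m` odd. -/
noncomputable def oddNum (W : ℤ → Submodule K V) : ℤ :=
  ∑ᶠ k : ℤ, ((finrank K (W (2 * k + 1)) : ℤ) - finrank K (W (2 * k)))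

lemma odd_eq {I : Type} [Finite I] {b : Basis I K V} {W : ℤ → Submodule K V} {w : I → ℤ}
    (hw : Adapted b W w) : oddNum W = Nat.card {i : I // Odd (w i)} := by
  classical
  have := Fintype.ofFinite I
  have h0 : ∀ k : ℤ, ((finrank K (W (2 * k + 1)) : ℤ) - finrank K (W (2 * k))) =
      Nat.card {i : I // w i = 2 * k + 1} := by
    intro k
    rw [hw, hw, finrank_span_image, finrank_span_image]
    have h1 : Nat.card {i : I // i ∈ ({i | w i ≤ 2 * k + 1} : Set I)} =
        Nat.card {i : I // i ∈ ({i | w i ≤ 2 * k} : Set I)} +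
          Nat.card {i : I // w i = 2 * k + 1} := by
      rw [Nat.card_eq_fintype_card, Nat.card_eq_fintype_card, Nat.card_eq_fintype_card,
        Fintype.card_subtype, Fintype.card_subtype, Fintype.card_subtype,
        ← Finset.card_union_of_disjoint]
      · congr 1
        ext i
        simp only [Set.mem_ofPred_eq, Finset.mem_filter,
          Finset.mem_univ, true_and, Finset.mem_union]
        omega
      · rw [Finset.disjoint_filter]
        intro i _ h
        simp only [Set.mem_ofPred_eq] at h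
        omega
    have h2 : (Nat.card {i : I // i ∈ ({i | w i ≤ 2 * k + 1} : Set I)} : ℤ) =
        Nat.card {i : I // i ∈ ({i | w i ≤ 2 * k} : Set I)} +
          Nat.card {i : I // w i = 2 * k + 1} := by exact_mod_cast h1
    have h3 : (Nat.card {i : I // i ∈ ({i | w i ≤ 2 * k + 1} : Set I)} : ℤ) -
        Nat.card {i : I // i ∈ ({i | w i ≤ 2 * k} : Set I)} =
          Nat.card {i : I // w i = 2 * k + 1} := by linarith
    exact h3
  unfold oddNum
  simp only [h0]
  have h1 : Function.support (fun k : ℤ => (Nat.card {i : I // w i = 2 * k + 1} : ℤ)) ⊆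
      (Finset.univ.image fun i => w i / 2 : Finset ℤ) := by
    intro k hk
    rw [Function.mem_support] at hk
    by_contra hcon
    apply hk
    have : IsEmpty {i : I // w i = 2 * k + 1} := by
      constructor
      rintro ⟨i, hi⟩
      exact hcon (Finset.mem_coe.2 (Finset.mem_image.2 ⟨i, Finset.mem_univ _, by omega⟩))
    rw [Nat.card_of_isEmpty]
    rfl
  rw [finsum_eq_sum_of_support_subset _ h1]
  have h2 : ({i : I | Odd (w i)} : Finset I).card = ∑ k ∈ Finset.univ.image (fun i => w i / 2),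
      (({i : I | Odd (w i)} : Finset I).filter fun i => w i / 2 = k).card :=
    Finset.card_eq_sum_card_fiberwise fun i _ => Finset.mem_coe.2
      (Finset.mem_image_of_mem (fun i => w i / 2) (Finset.mem_univ i))
  rw [Nat.card_eq_fintype_card, Fintype.card_subtype, h2, Nat.cast_sum]
  refine Finset.sum_congr rfl fun k _ => ?_
  rw [Nat.card_eq_fintype_card, Fintype.card_subtype]
  congr 2
  ext i
  simp only [Finset.mem_filter, Finset.mem_univ, true_and, Int.odd_iff]
  omega

/-- The sign of an integer modulo two. -/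
def sg (z : ℤ) : ℤ := if Even z then 1 else -1

lemma sg_add (x y : ℤ) : sg (x + y) = sg x * sg y := by
  unfold sg
  by_cases hx : Even x <;> by_cases hy : Even y <;> simp [hx, hy, Int.even_add]

lemma sg_sum {J : Type} (s : Finset J) (f : J → ℤ) : sg (∑ i ∈ s, f i) = ∏ i ∈ s, sg (f i) := by
  classical
  induction s using Finset.induction_on with
  | empty => simp [sg]
  | insert a s ha ih => rw [Finset.sum_insert ha, Finset.prod_insert ha, sg_add, ih]

lemma sum_sg {I : Type} [Fintype I] (w : I → ℤ) :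
    ∑ i, sg (w i) = (Fintype.card I : ℤ) - 2 * Nat.card {i : I // Odd (w i)} := by
  classical
  have h1 : ∀ i, sg (w i) = 1 - 2 * (if Odd (w i) then 1 else 0) := by
    intro i
    unfold sg
    by_cases h : Even (w i)
    · rw [if_pos h, if_neg (Int.not_odd_iff_even.2 h)]; ring
    · rw [if_neg h, if_pos (Int.not_even_iff_odd.1 h)]; ring
  simp only [h1]
  rw [Finset.sum_sub_distrib, ← Finset.mul_sum, Finset.sum_boole, Nat.card_eq_fintype_card,
    Fintype.card_subtype]
  simp

lemma odd_count {I : Type} [Fintype I] (w : I → ℤ) (n : ℕ) :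
    2 * (Nat.card {g : Fin n → I // Odd (∑ k, w (g k))} : ℤ) =
      (Fintype.card I : ℤ) ^ n - (∑ i, sg (w i)) ^ n := by
  classical
  have h1 := sum_sg (fun g : Fin n → I => ∑ k, w (g k))
  have h2 : ∑ g : Fin n → I, sg (∑ k, w (g k)) = (∑ i, sg (w i)) ^ n := by
    rw [Fintype.sum_pow]
    exact Finset.sum_congr rfl fun g _ => sg_sum _ _
  rw [h2, Fintype.card_fun, Fintype.card_fin, Nat.cast_pow] at h1
  linarith

/-- There are no odd indices. -/
def NoOdd (W : ℤ → Submodule K V) : Prop := ∀ k : ℤ, W (2 * k + 1) = W (2 * k)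

lemma odd_power {N : ℕ} {b : Basis (Fin N) K V} {W : ℤ → Submodule K V} {w : Fin N → ℤ}
    (hw : Adapted b W w) {V' : Type v'} [AddCommGroup V'] [Module K V'] {n : ℕ}
    (e : V' ≃ₗ[K] (⨂[K] _ : Fin n, V)) {W' : ℤ → Submodule K V'}
    (hW' : ∀ k, (W' k).map e.toLinearMap = tensorFil W n k) :
    2 * oddNum W' = (N : ℤ) ^ n - (∑ i, sg (w i)) ^ n ∧ finrank K V' = N ^ n := by
  have h7 := (adapted_tensor hw n).pull e hW'
  have h8 : oddNum W' = Nat.card {g : Fin n → Fin N // Odd (∑ k, w (g k))} := odd_eq h7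
  have h10 := odd_count w n
  rw [Fintype.card_fin] at h10
  refine ⟨by rw [h8]; exact h10, ?_⟩
  rw [finrank_eq_nat_card_basis ((Basis.piTensorProduct fun _ : Fin n => b).map e.symm),
      Nat.card_eq_fintype_card, Fintype.card_fun, Fintype.card_fin, Fintype.card_fin]

lemma sg_lt {N : ℕ} {w : Fin N → ℤ} {i₀ i₁ : Fin N} (h₀ : ¬ Odd (w i₀)) (h₁ : Odd (w i₁)) :
    |((∑ i, sg (w i) : ℤ) : ℝ) / N| < 1 := by
  classical
  have hN : (0 : ℝ) < N := by
    have : 0 < N := lt_of_le_of_lt (Nat.zero_le _) i₁.2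
    exact_mod_cast this
  have hA1 := sum_sg w
  rw [Fintype.card_fin] at hA1
  have hc1 : 0 < Nat.card {i : Fin N // Odd (w i)} := by
    have : Nonempty {i : Fin N // Odd (w i)} := ⟨⟨i₁, h₁⟩⟩
    exact Nat.card_pos
  have hc2 : Nat.card {i : Fin N // Odd (w i)} < N := by
    have h1 := Fintype.card_subtype_lt (p := fun i : Fin N => Odd (w i)) (x := i₀) h₀
    rwa [Fintype.card_fin, ← Nat.card_eq_fintype_card] at h1
  rw [hA1, abs_div, abs_of_pos hN, div_lt_one hN, abs_lt]
  have h3 : (0 : ℝ) < Nat.card {i : Fin N // Odd (w i)} := by exact_mod_cast hc1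
  have h4 : (Nat.card {i : Fin N // Odd (w i)} : ℝ) < N := by exact_mod_cast hc2
  push_cast
  constructor <;> linarith

lemma odd_lim {N : ℕ} (hN : 0 < N) {A : ℤ} (hA : |(A : ℝ) / N| < 1) {x : ℕ → ℤ} {y : ℕ → ℕ}
    (hx : ∀ n, 2 * x n = (N : ℤ) ^ n - A ^ n) (hy : ∀ n, y n = N ^ n) :
    Tendsto (fun n : ℕ => (x n : ℝ) / (y n : ℝ)) atTop (𝓝 (1 / 2)) := by
  have h5 := (tendsto_pow_atTop_nhds_zero_of_abs_lt_one hA).const_sub 1
  have h6 := h5.div_const 2
  rw [sub_zero] at h6
  refine h6.congr fun n => ?_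
  have h11 : 2 * (x n : ℝ) = (N : ℝ) ^ n - (A : ℝ) ^ n := by exact_mod_cast hx n
  rw [hy n, div_pow]
  push_cast
  have hN' : (0 : ℝ) < N := by exact_mod_cast hN
  have hNn : (N : ℝ) ^ n ≠ 0 := by positivity
  have h12 : (x n : ℝ) = ((N : ℝ) ^ n - (A : ℝ) ^ n) / 2 := by linarith
  rw [h12]
  field_simp

/-- **The law for the odd indices.** -/
theorem odd_law [Module.Finite K V] {W : ℤ → Submodule K V} (hW : IsFil W) (h : ¬ NoOdd W)
    (hunit : ∃ x ∈ W 0, x ∉ W (-1)) :
    ∃ (N : ℕ) (A : ℤ), 0 < N ∧ |(A : ℝ) / N| < 1 ∧ ∀ (n : ℕ) (V' : Type v') [AddCommGroup V']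
      [Module K V'] (e : V' ≃ₗ[K] (⨂[K] _ : Fin n, V)) (W' : ℤ → Submodule K V'),
      (∀ k, (W' k).map e.toLinearMap = tensorFil W n k) →
      2 * oddNum W' = (N : ℤ) ^ n - A ^ n ∧ finrank K V' = N ^ n := by
  classical
  obtain ⟨b, w0, w, hw0, hw⟩ := exists_adapted (finrank K V) V rfl W W hW hW
  -- an odd and an even index
  have ho : ∃ i, Odd (w i) := by
    by_contra hcon
    push Not at hcon
    apply h
    intro k
    rw [hw (2 * k + 1), hw (2 * k)]
    have : {i | w i ≤ 2 * k + 1} = {i | w i ≤ 2 * k} := by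
      ext i
      have h1 := hcon i
      rw [Int.odd_iff] at h1
      simp only [Set.mem_ofPred_eq]
      omega
    rw [this]
  have he : ∃ i, w i = 0 := by
    by_contra hcon
    push Not at hcon
    obtain ⟨x, hx, hx'⟩ := hunit
    apply hx'
    rw [hw 0] at hx
    rw [hw (-1)]
    have : {i | w i ≤ 0} = {i | w i ≤ -1} := by
      ext i
      have h1 := hcon i
      simp only [Set.mem_ofPred_eq]
      omega
    rw [← this]
    exact hx
  obtain ⟨i₁, hi₁⟩ := ho
  obtain ⟨i₀, hi₀⟩ := he
  refine ⟨finrank K V, ∑ i, sg (w i), lt_of_le_of_lt (Nat.zero_le _) i₁.2,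
    sg_lt (i₀ := i₀) (by rw [hi₀]; decide) hi₁, fun n V' _ _ e W' hW' => odd_power hw e hW'⟩

/-- No odd indices on the tensor powers. -/
theorem odd_zero {W : ℤ → Submodule K V} (h : NoOdd W) : oddNum W = 0 := by
  unfold oddNum
  have : (fun k : ℤ => ((finrank K (W (2 * k + 1)) : ℤ) - finrank K (W (2 * k)))) = fun _ => 0 := by
    funext k
    rw [h k, sub_self]
  rw [this, finsum_zero]

end Pool.Agent.U282.TF
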