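import Pool.Agent.U282.TF.WBound

/-! Coefficients of the powers of a polynomial with nonnegative coefficients. -/

set_option autoImplicit false

open Polynomial

namespace Pool.Agent.U282.TF

lemma coeff_mul_fin {N : ℕ} {P : ℕ[X]} (hP : P.natDegree < N) (Q : ℕ[X]) (k : ℕ) :
    (P * Q).coeff k =
      ∑ i : Fin N, P.coeff i * (if (i : ℕ) ≤ k then Q.coeff (k - i) else 0) := by
  conv_lhs => rw [P.as_sum_range' N hP]
  rw [Finset.sum_mul, Polynomial.finset_sum_coeff, Finset.sum_range]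
  refine Finset.sum_congr rfl fun i _ => ?_
  rw [← Polynomial.C_mul_X_pow_eq_monomial, mul_assoc, Polynomial.coeff_C_mul,
    Polynomial.coeff_X_pow_mul']

lemma pow_coeff {N : ℕ} {P : ℕ[X]} (hP : P.natDegree < N) (n : ℕ) : ∀ x : ℤ,
    wwords (fun i : Fin N => (P.coeff i : ℝ)) (fun i : Fin N => ((i : ℕ) : ℤ)) n x =
      if 0 ≤ x then ((P ^ n).coeff x.toNat : ℝ) else 0 := by
  induction n with
  | zero =>
    intro x
    rw [wwords, pow_zero, Polynomial.coeff_one]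
    by_cases h : x = 0
    · subst h
      simp
    · rw [if_neg h]
      split_ifs with h1 h2
      · exfalso
        omega
      · simp
      · rfl
  | succ n ih =>
    intro x
    rw [wwords]
    simp only [ih]
    by_cases hx : 0 ≤ x
    · rw [if_pos hx, pow_succ', coeff_mul_fin hP, Nat.cast_sum]
      refine Finset.sum_congr rfl fun i _ => ?_
      rw [Nat.cast_mul]
      congr 1
      by_cases h : (i : ℕ) ≤ x.toNat
      · rw [if_pos h, if_pos (by omega)]
        congr 2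
        omega
      · rw [if_neg h, if_neg (by omega)]
        simp
    · rw [if_neg hx]
      refine Finset.sum_eq_zero fun i _ => ?_
      rw [if_neg (by omega), mul_zero]

/-- **The coefficients of the powers.** -/
theorem pow_coeff_le {P : ℕ[X]} {i j : ℕ} (hij : i ≠ j) (hi : P.coeff i ≠ 0)
    (hj : P.coeff j ≠ 0) : ∃ C : ℝ, 0 ≤ C ∧ ∀ n k : ℕ, 1 ≤ n →
      ((P ^ n).coeff k : ℝ) * √(n : ℝ) ≤ C * ((P.eval 1 : ℕ) : ℝ) ^ n := by
  have hN : P.natDegree < P.natDegree + 1 := Nat.lt_succ_self _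
  have hi' : i < P.natDegree + 1 := Nat.lt_succ_of_le (Polynomial.le_natDegree_of_ne_zero hi)
  have hj' : j < P.natDegree + 1 := Nat.lt_succ_of_le (Polynomial.le_natDegree_of_ne_zero hj)
  obtain ⟨C, hC0, hC⟩ := wwords_bound (b := fun i : Fin (P.natDegree + 1) => (P.coeff i : ℝ))
    (fun i => Nat.cast_nonneg _) (δ := fun i : Fin (P.natDegree + 1) => ((i : ℕ) : ℤ))
    (i₀ := ⟨i, hi'⟩) (i₁ := ⟨j, hj'⟩) (by simpa using hij)
    (by simpa using Nat.pos_of_ne_zero hi) (by simpa using Nat.pos_of_ne_zero hj)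
  have hT : ∑ i : Fin (P.natDegree + 1), (P.coeff i : ℝ) = (P.eval 1 : ℕ) := by
    rw [Polynomial.eval_eq_sum_range, ← Finset.sum_range (fun i => (P.coeff i : ℝ))]
    push_cast
    simp
  refine ⟨C, hC0, fun n k hn => ?_⟩
  have h1 := hC n k hn
  rw [pow_coeff hN n k, if_pos (by omega), Int.toNat_natCast, hT] at h1
  exact h1

/-- The window form. -/
theorem window_le {P : ℕ[X]} {i j : ℕ} (hij : i ≠ j) (hi : P.coeff i ≠ 0)
    (hj : P.coeff j ≠ 0) : ∃ C : ℝ, 0 ≤ C ∧ ∀ (n : ℕ) (q : ℤ) (w : ℕ), 1 ≤ n →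
      ((∑ k ∈ (P ^ n).support.filter (fun k : ℕ => |(k : ℤ) - q| ≤ w), (P ^ n).coeff k : ℕ) : ℝ) *
        √(n : ℝ) ≤ C * (w + 1) * ((P.eval 1 : ℕ) : ℝ) ^ n := by
  obtain ⟨C, hC0, hC⟩ := pow_coeff_le hij hi hj
  refine ⟨2 * C, by positivity, fun n q w hn => ?_⟩
  have hcard : ((P ^ n).support.filter (fun k : ℕ => |(k : ℤ) - q| ≤ w)).card ≤ 2 * w + 1 := by
    have h1 : (((P ^ n).support.filter (fun k : ℕ => |(k : ℤ) - q| ≤ w)).image
        (fun k : ℕ => (k : ℤ))) ⊆ Finset.Icc (q - w) (q + w) := by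
      intro x hx
      obtain ⟨k, hk, rfl⟩ := Finset.mem_image.1 hx
      have h2 := (Finset.mem_filter.1 hk).2
      rw [abs_le] at h2
      rw [Finset.mem_Icc]
      constructor <;> linarith [h2.1, h2.2]
    have h3 := Finset.card_le_card h1
    rw [Finset.card_image_of_injective _ Nat.cast_injective, Int.card_Icc] at h3
    omega
  push_cast
  rw [Finset.sum_mul]
  have h4 : ∑ k ∈ (P ^ n).support.filter (fun k : ℕ => |(k : ℤ) - q| ≤ w),
      ((P ^ n).coeff k : ℝ) * √(n : ℝ) ≤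
      ∑ _k ∈ (P ^ n).support.filter (fun k : ℕ => |(k : ℤ) - q| ≤ w), C * ((P.eval 1 : ℕ) : ℝ) ^ n :=
    Finset.sum_le_sum fun k _ => hC n k hn
  refine h4.trans ?_
  rw [Finset.sum_const, nsmul_eq_mul]
  have h5 : (((P ^ n).support.filter (fun k : ℕ => |(k : ℤ) - q| ≤ w)).card : ℝ) ≤ 2 * w + 1 := by
    exact_mod_cast hcard
  have h6 : (0 : ℝ) ≤ C * ((P.eval 1 : ℕ) : ℝ) ^ n := by positivity
  calc _ ≤ (2 * (w : ℝ) + 1) * (C * ((P.eval 1 : ℕ) : ℝ) ^ n) := mul_le_mul_of_nonneg_right h5 h6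
    _ ≤ (2 * ((w : ℝ) + 1)) * (C * ((P.eval 1 : ℕ) : ℝ) ^ n) :=
        mul_le_mul_of_nonneg_right (by linarith) h6
    _ = 2 * C * (w + 1) * ((P.eval 1 : ℕ) : ℝ) ^ n := by ring

/-- The power of one coefficient. -/
lemma coeff_pow_ge (P : ℕ[X]) (i n : ℕ) : P.coeff i ^ n ≤ (P ^ n).coeff (n * i) := by
  induction n with
  | zero => simp
  | succ n ih =>
    rw [pow_succ, pow_succ, Polynomial.coeff_mul]
    refine (Nat.mul_le_mul_right _ ih).trans ?_
    have h := Finset.single_le_sum (f := fun x : ℕ × ℕ => (P ^ n).coeff x.1 * P.coeff x.2)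
      (s := Finset.HasAntidiagonal.antidiagonal ((n + 1) * i)) (fun x _ => Nat.zero_le _) (a := (n * i, i))
      (by rw [Finset.HasAntidiagonal.mem_antidiagonal]; ring)
    exact h

end Pool.Agent.U282.TF
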