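import Pool.Agent.U282.TF.Adapt
import Pool.Agent.Y163.MW.Lin

/-! Tensor powers of filtrations and the relative position of two filtrations. -/

set_option autoImplicit false

open Module
open scoped TensorProduct

namespace Pool.Agent.U282.TF

universe u v

open Pool.Agent.Y163.MW (finrank_span_image span_image_inf)

variable {K : Type u} [Field K] {V : Type v} [AddCommGroup V] [Module K V]

/-- The filtration on the `n`-th tensor power of `V` induced by the increasing filtration `F` of `V`. -/
def tensorFil (F : ℤ → Submodule K V) (n : ℕ) (k : ℤ) : Submodule K (⨂[K] _ : Fin n, V) :=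
  Submodule.span K {t | ∃ (j : Fin n → ℤ) (x : Fin n → V), (∀ i, x i ∈ F (j i)) ∧ ∑ i, j i ≤ k ∧
    t = PiTensorProduct.tprod K x}

theorem adapted_tensor {I : Type} {b : Basis I K V} {P : ℤ → Submodule K V} {p : I → ℤ}
    (hb : Adapted b P p) (n : ℕ) :
    Adapted (Basis.piTensorProduct fun _ : Fin n => b) (tensorFil P n)
      (fun g : Fin n → I => ∑ i, p (g i)) := by
  classical
  intro k
  apply le_antisymm
  · rw [tensorFil, Submodule.span_le]
    rintro t ⟨j, x, hx, hj, rfl⟩
    rw [SetLike.mem_coe, Basis.mem_span_image]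
    intro g hg
    have h1 := Finsupp.mem_support_iff.1 (Finset.mem_coe.1 hg)
    rw [Basis.piTensorProduct_repr_tprod_apply] at h1
    show ∑ i, p (g i) ≤ k
    refine (Finset.sum_le_sum fun i _ => ?_).trans hj
    have h2 : b.repr (x i) (g i) ≠ 0 := fun h => h1 (Finset.prod_eq_zero (Finset.mem_univ i) h)
    have h3 := hx i
    rw [hb, Basis.mem_span_image] at h3
    exact h3 (Finset.mem_coe.2 (Finsupp.mem_support_iff.2 h2))
  · rw [Submodule.span_le]
    rintro _ ⟨g, hg, rfl⟩
    apply Submodule.subset_span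
    refine ⟨fun i => p (g i), fun i => b (g i), fun i => ?_, hg, Basis.piTensorProduct_apply _ _⟩
    rw [hb]
    exact Submodule.subset_span ⟨g i, (le_refl (p (g i)) : p (g i) ≤ p (g i)), rfl⟩

/-- The dimension of `gr^P_k gr^W_m`: of the quotient of `P_k ∩ W_m` by `P_(k-1) ∩ W_m + P_k ∩ W_(m-1)`. -/
noncomputable def pos (P W : ℤ → Submodule K V) (k m : ℤ) : ℤ :=
  (finrank K (P k ⊓ W m : Submodule K V) : ℤ) -
    finrank K ((P (k - 1) ⊓ W m) ⊔ (P k ⊓ W (m - 1)) : Submodule K V)

lemma pos_eq {I : Type} [Finite I] {b : Basis I K V} {P W : ℤ → Submodule K V} {p w : I → ℤ}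
    (hp : Adapted b P p) (hw : Adapted b W w) (k m : ℤ) :
    pos P W k m = Nat.card {i : I // p i = k ∧ w i = m} := by
  classical
  have := Fintype.ofFinite I
  unfold pos
  rw [hp k, hp (k - 1), hw m, hw (m - 1), span_image_inf, span_image_inf, span_image_inf,
    ← Submodule.span_union, ← Set.image_union, finrank_span_image, finrank_span_image]
  have h1 : Nat.card {i : I // i ∈ ({i | p i ≤ k} ∩ {i | w i ≤ m} : Set I)} =
      Nat.card {i : I // i ∈ (({i | p i ≤ k - 1} ∩ {i | w i ≤ m}) ∪
        ({i | p i ≤ k} ∩ {i | w i ≤ m - 1}) : Set I)} + Nat.card {i : I // p i = k ∧ w i = m} := by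
    rw [Nat.card_eq_fintype_card, Nat.card_eq_fintype_card, Nat.card_eq_fintype_card,
      Fintype.card_subtype, Fintype.card_subtype, Fintype.card_subtype,
      ← Finset.card_union_of_disjoint]
    · congr 1
      ext i
      simp only [Set.mem_inter_iff, Set.mem_setOf_eq, Set.mem_union, Finset.mem_filter,
        Finset.mem_univ, true_and, Finset.mem_union]
      omega
    · rw [Finset.disjoint_filter]
      intro i _ h
      simp only [Set.mem_inter_iff, Set.mem_setOf_eq, Set.mem_union] at h
      omega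
  have h2 : (Nat.card {i : I // i ∈ ({i | p i ≤ k} ∩ {i | w i ≤ m} : Set I)} : ℤ) =
      Nat.card {i : I // i ∈ (({i | p i ≤ k - 1} ∩ {i | w i ≤ m}) ∪
        ({i | p i ≤ k} ∩ {i | w i ≤ m - 1}) : Set I)} +
        Nat.card {i : I // p i = k ∧ w i = m} := by exact_mod_cast h1
  have h3 : (Nat.card {i : I // i ∈ ({i | p i ≤ k} ∩ {i | w i ≤ m} : Set I)} : ℤ) -
      Nat.card {i : I // i ∈ (({i | p i ≤ k - 1} ∩ {i | w i ≤ m}) ∪
        ({i | p i ≤ k} ∩ {i | w i ≤ m - 1}) : Set I)} =
        Nat.card {i : I // p i = k ∧ w i = m} := by linarith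
  exact h3

/-- The sum of the dimensions of the `gr^P_k gr^W_(2 k)`. -/
noncomputable def diag (P W : ℤ → Submodule K V) : ℤ := ∑ᶠ k : ℤ, pos P W k (2 * k)

lemma diag_eq {I : Type} [Finite I] {b : Basis I K V} {P W : ℤ → Submodule K V} {p w : I → ℤ}
    (hp : Adapted b P p) (hw : Adapted b W w) :
    diag P W = Nat.card {i : I // w i = 2 * p i} := by
  classical
  have := Fintype.ofFinite I
  unfold diag
  simp only [pos_eq hp hw]
  have h1 : Function.support (fun k : ℤ => (Nat.card {i : I // p i = k ∧ w i = 2 * k} : ℤ)) ⊆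
      (Finset.univ.image p : Finset ℤ) := by
    intro k hk
    rw [Function.mem_support] at hk
    by_contra hcon
    apply hk
    have : IsEmpty {i : I // p i = k ∧ w i = 2 * k} := by
      constructor
      rintro ⟨i, hi, -⟩
      exact hcon (Finset.mem_coe.2 (Finset.mem_image.2 ⟨i, Finset.mem_univ _, hi⟩))
    rw [Nat.card_of_isEmpty]
    rfl
  rw [finsum_eq_sum_of_support_subset _ h1]
  have h2 : ({i : I | w i = 2 * p i} : Finset I).card = ∑ k ∈ Finset.univ.image p,
      (({i : I | w i = 2 * p i} : Finset I).filter fun i => p i = k).card :=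
    Finset.card_eq_sum_card_fiberwise fun i _ => Finset.mem_coe.2
      (Finset.mem_image_of_mem p (Finset.mem_univ i))
  rw [Nat.card_eq_fintype_card, Fintype.card_subtype, h2, Nat.cast_sum]
  refine Finset.sum_congr rfl fun k _ => ?_
  rw [Nat.card_eq_fintype_card, Fintype.card_subtype]
  congr 2
  ext i
  simp only [Finset.mem_filter, Finset.mem_univ, true_and]
  constructor
  · rintro ⟨h3, h4⟩; exact ⟨by rw [h3]; exact h4, h3⟩
  · rintro ⟨h3, h4⟩; exact ⟨h4, by rw [← h4]; exact h3⟩

end Pool.Agent.U282.TF
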