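import Pool.Agent.U282.TF.Bound
import Pool.Agent.U282.RW.Cnt

/-! A weighted Littlewood-Offord bound. -/

set_option autoImplicit false

open Filter Topology MeasureTheory

namespace Pool.Agent.U282.TF

section walk

variable (T c : ℝ)

/-- The symmetric walk with the weights `c, T - 2 c, c`. -/
noncomputable def walk : ℕ → ℤ → ℝ
  | 0, s => if s = 0 then 1 else 0
  | n + 1, s => (T - 2 * c) * walk n s + c * walk n (s - 1) + c * walk n (s + 1)

variable {T c}

lemma walk_integral (n : ℕ) (s : ℤ) :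
    2 * Real.pi * walk T c n s =
      ∫ t in (-Real.pi)..Real.pi, (T - 2 * c + 2 * c * Real.cos t) ^ n * Real.cos ((s : ℝ) * t) := by
  induction n generalizing s with
  | zero =>
    simp only [pow_zero, one_mul]
    rw [Pool.Agent.U282.RW.int_cos', walk]
    split_ifs <;> simp
  | succ n ih =>
    have e : ∀ t : ℝ, (T - 2 * c + 2 * c * Real.cos t) ^ (n + 1) * Real.cos ((s : ℝ) * t) =
        (T - 2 * c) * ((T - 2 * c + 2 * c * Real.cos t) ^ n * Real.cos ((s : ℝ) * t)) +
        c * ((T - 2 * c + 2 * c * Real.cos t) ^ n * Real.cos (((s - 1 : ℤ) : ℝ) * t)) +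
        c * ((T - 2 * c + 2 * c * Real.cos t) ^ n * Real.cos (((s + 1 : ℤ) : ℝ) * t)) := by
      intro t
      have h1 : Real.cos (((s - 1 : ℤ) : ℝ) * t) + Real.cos (((s + 1 : ℤ) : ℝ) * t) =
          2 * Real.cos t * Real.cos ((s : ℝ) * t) := by
        push_cast
        rw [sub_mul, add_mul, one_mul, Real.cos_sub, Real.cos_add]
        ring
      have h2 : c * ((T - 2 * c + 2 * c * Real.cos t) ^ n * Real.cos (((s - 1 : ℤ) : ℝ) * t)) +
          c * ((T - 2 * c + 2 * c * Real.cos t) ^ n * Real.cos (((s + 1 : ℤ) : ℝ) * t)) =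
          c * (T - 2 * c + 2 * c * Real.cos t) ^ n *
            (2 * Real.cos t * Real.cos ((s : ℝ) * t)) := by
        rw [← h1]; ring
      rw [add_assoc, h2, pow_succ]
      ring
    have hi : ∀ r : ℤ, IntervalIntegrable (fun t : ℝ =>
        (T - 2 * c + 2 * c * Real.cos t) ^ n * Real.cos ((r : ℝ) * t)) volume (-Real.pi) Real.pi :=
      fun r => Continuous.intervalIntegrable (by fun_prop) _ _
    simp only [e]
    rw [intervalIntegral.integral_add (((hi s).const_mul _).add ((hi (s - 1)).const_mul _))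
      ((hi (s + 1)).const_mul _), intervalIntegral.integral_add ((hi s).const_mul _)
      ((hi (s - 1)).const_mul _), intervalIntegral.integral_const_mul,
      intervalIntegral.integral_const_mul, intervalIntegral.integral_const_mul, ← ih, ← ih, ← ih,
      walk]
    ring

/-- The local bound for the walk. -/
theorem walk_le (hc : 0 < c) (h4 : 4 * c ≤ T) :
    ∃ C : ℝ, 0 ≤ C ∧ ∀ (n : ℕ) (s : ℤ), 1 ≤ n → walk T c n s * √(n : ℝ) ≤ C * T ^ n := by
  have hT : 0 < T := by linarith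
  have hpi := Real.pi_pos
  set κ : ℝ := 4 * c / (T * Real.pi ^ 2) with hκ
  have hκ0 : 0 < κ := by positivity
  refine ⟨1 / (2 * Real.pi) * √(Real.pi / κ), by positivity, fun n s hn => ?_⟩
  have hn0 : (0 : ℝ) < n := by exact_mod_cast hn
  have hb : ∀ t ∈ Set.Icc (-Real.pi) Real.pi,
      (T - 2 * c + 2 * c * Real.cos t) ^ n * Real.cos ((s : ℝ) * t) ≤
        T ^ n * Real.exp (-(κ * n) * t ^ 2) := by
    intro t ht
    have h1 : 0 ≤ T - 2 * c + 2 * c * Real.cos t := by
      have := Real.neg_one_le_cos t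
      nlinarith
    have h2 : (T - 2 * c + 2 * c * Real.cos t) ^ n * Real.cos ((s : ℝ) * t) ≤
        (T - 2 * c + 2 * c * Real.cos t) ^ n := by
      have := mul_le_mul_of_nonneg_left (Real.cos_le_one ((s : ℝ) * t)) (pow_nonneg h1 n)
      rwa [mul_one] at this
    refine h2.trans ?_
    have h3 : T - 2 * c + 2 * c * Real.cos t ≤ T * Real.exp (-κ * t ^ 2) := by
      have h5 : Real.cos t ≤ 1 - 2 / Real.pi ^ 2 * t ^ 2 :=
        Real.cos_le_one_sub_mul_cos_sq (abs_le.2 ⟨ht.1, ht.2⟩)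
      have h6 : T - 2 * c + 2 * c * Real.cos t ≤ T * (1 + -κ * t ^ 2) := by
        have h7 : T * (1 + -κ * t ^ 2) = T - 2 * c * (2 / Real.pi ^ 2 * t ^ 2) := by
          rw [hκ]
          field_simp
          ring
        rw [h7]
        nlinarith
      refine h6.trans (mul_le_mul_of_nonneg_left ?_ hT.le)
      have := Real.add_one_le_exp (-κ * t ^ 2)
      linarith
    calc (T - 2 * c + 2 * c * Real.cos t) ^ n ≤ (T * Real.exp (-κ * t ^ 2)) ^ n :=
          pow_le_pow_left₀ h1 h3 n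
      _ = T ^ n * Real.exp (-(κ * n) * t ^ 2) := by
          rw [mul_pow, ← Real.exp_nat_mul]
          congr 2
          ring
  have h1 : 2 * Real.pi * walk T c n s ≤ T ^ n * √(Real.pi / (κ * n)) := by
    rw [walk_integral]
    have hg : Integrable (fun t : ℝ => Real.exp (-(κ * n) * t ^ 2)) :=
      integrable_exp_neg_mul_sq (by positivity)
    calc ∫ t in (-Real.pi)..Real.pi, (T - 2 * c + 2 * c * Real.cos t) ^ n *
          Real.cos ((s : ℝ) * t) ≤
        ∫ t in (-Real.pi)..Real.pi, T ^ n * Real.exp (-(κ * n) * t ^ 2) := by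
          apply intervalIntegral.integral_mono_on (by linarith)
            (Continuous.intervalIntegrable (by fun_prop) _ _)
            (Continuous.intervalIntegrable (by fun_prop) _ _) hb
      _ = T ^ n * ∫ t in (-Real.pi)..Real.pi, Real.exp (-(κ * n) * t ^ 2) :=
          intervalIntegral.integral_const_mul _ _
      _ ≤ T ^ n * ∫ t : ℝ, Real.exp (-(κ * n) * t ^ 2) := by
          apply mul_le_mul_of_nonneg_left _ (by positivity)
          rw [intervalIntegral.integral_of_le (by linarith)]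
          exact setIntegral_le_integral hg (Filter.Eventually.of_forall fun t => (Real.exp_pos _).le)
      _ = T ^ n * √(Real.pi / (κ * n)) := by rw [integral_gaussian]
  have h2 : √(Real.pi / (κ * n)) * √(n : ℝ) = √(Real.pi / κ) := by
    rw [← Real.sqrt_mul (by positivity)]
    congr 1
    field_simp
  have h3 : 2 * Real.pi * (walk T c n s * √(n : ℝ)) ≤ T ^ n * √(Real.pi / κ) := by
    rw [← h2, ← mul_assoc, ← mul_assoc]
    exact mul_le_mul_of_nonneg_right h1 (Real.sqrt_nonneg _)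
  rw [one_div, mul_assoc, mul_comm (√(Real.pi / κ)), ← div_eq_inv_mul, le_div_iff₀ (by positivity)]
  linarith

end walk

section weights

variable {I : Type} [Fintype I]

/-- The total weight of the words of length `n` of sum `x`, for the weights `b`. -/
noncomputable def wwords (b : I → ℝ) (δ : I → ℤ) : ℕ → ℤ → ℝ
  | 0, x => if x = 0 then 1 else 0
  | n + 1, x => ∑ i, b i * wwords b δ n (x - δ i)

lemma wwords_nonneg {b : I → ℝ} (hb : ∀ i, 0 ≤ b i) (δ : I → ℤ) (n : ℕ) (x : ℤ) :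
    0 ≤ wwords b δ n x := by
  induction n generalizing x with
  | zero => rw [wwords]; split_ifs <;> norm_num
  | succ n ih => rw [wwords]; exact Finset.sum_nonneg fun i _ => mul_nonneg (hb i) (ih _)

/-- The sum over a progression. -/
noncomputable def wprog (b : I → ℝ) (δ : I → ℤ) (d : ℤ) (n : ℕ) (x : ℤ) (m : ℕ) : ℝ :=
  ∑ j ∈ Finset.range m, wwords b δ n (x + j * d)

/-- The sum over `-m < s ≤ m`. -/
noncomputable def wmid (T c : ℝ) (n m : ℕ) : ℝ := ∑ s ∈ Finset.Ioc (-(m : ℤ)) m, walk T c n s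

lemma wprog_step (b : I → ℝ) (δ : I → ℤ) (d : ℤ) (n : ℕ) (y : ℤ) (m : ℕ) :
    wprog b δ d n y (m + 1) + wprog b δ d n (y + d) (m + 1) =
      wprog b δ d n y (m + 2) + wprog b δ d n (y + d) m := by
  unfold wprog
  have h1 : ∑ j ∈ Finset.range (m + 1), wwords b δ n (y + d + (j : ℤ) * d) =
      ∑ j ∈ Finset.range m, wwords b δ n (y + d + (j : ℤ) * d) +
        wwords b δ n (y + ((m + 1 : ℕ) : ℤ) * d) := by
    rw [Finset.sum_range_succ]
    congr 2
    push_cast
    ring
  rw [h1, Finset.sum_range_succ _ (m + 1)]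
  ring

lemma wshift_Ioc (F : ℤ → ℝ) (p q r : ℤ) :
    ∑ s ∈ Finset.Ioc p q, F (s + r) = ∑ s ∈ Finset.Ioc (p + r) (q + r), F s := by
  rw [← Finset.map_add_right_Ioc, Finset.sum_map]
  rfl

lemma wmid_step (h : ℤ → ℝ) (m : ℕ) :
    ∑ s ∈ Finset.Ioc (-((m : ℤ) + 1)) (m + 1), h (s + -1) +
      ∑ s ∈ Finset.Ioc (-((m : ℤ) + 1)) (m + 1), h (s + 1) =
    ∑ s ∈ Finset.Ioc (-((m : ℤ) + 2)) (m + 2), h s + ∑ s ∈ Finset.Ioc (-(m : ℤ)) m, h s := by
  rw [wshift_Ioc, wshift_Ioc]
  have e1 : Finset.Ioc (-((m : ℤ) + 2)) (m + 2) =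
      Finset.Ioc (-((m : ℤ) + 2)) m ∪ Finset.Ioc (m : ℤ) (m + 2) := by
    ext s; simp only [Finset.mem_Ioc, Finset.mem_union]; omega
  have e2 : Finset.Ioc (-(m : ℤ)) (m + 2) =
      Finset.Ioc (-(m : ℤ)) m ∪ Finset.Ioc (m : ℤ) (m + 2) := by
    ext s; simp only [Finset.mem_Ioc, Finset.mem_union]; omega
  have d1 : Disjoint (Finset.Ioc (-((m : ℤ) + 2)) (m : ℤ)) (Finset.Ioc (m : ℤ) (m + 2)) := by
    rw [Finset.disjoint_left]
    intro s hs hs'
    simp only [Finset.mem_Ioc] at hs hs'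
    omega
  have d2 : Disjoint (Finset.Ioc (-(m : ℤ)) (m : ℤ)) (Finset.Ioc (m : ℤ) (m + 2)) := by
    rw [Finset.disjoint_left]
    intro s hs hs'
    simp only [Finset.mem_Ioc] at hs hs'
    omega
  have e3 : (-((m : ℤ) + 1) + -1) = -((m : ℤ) + 2) := by ring
  have e4 : ((m : ℤ) + 1 + -1) = m := by ring
  have e5 : (-((m : ℤ) + 1) + 1) = -(m : ℤ) := by ring
  have e6 : ((m : ℤ) + 1 + 1) = m + 2 := by ring
  rw [e3, e4, e5, e6, e1, e2, Finset.sum_union d1, Finset.sum_union d2]
  ring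

lemma wmid_rec (T c : ℝ) (n m : ℕ) :
    wmid T c (n + 1) (m + 1) = (T - 2 * c) * wmid T c n (m + 1) +
      c * (wmid T c n (m + 2) + wmid T c n m) := by
  unfold wmid
  simp only [walk]
  rw [Finset.sum_add_distrib, Finset.sum_add_distrib, ← Finset.mul_sum, ← Finset.mul_sum,
    ← Finset.mul_sum, add_assoc, ← mul_add]
  have h3 := wmid_step (walk T c n) m
  have e3 : ∀ s : ℤ, s - 1 = s + -1 := fun s => by ring
  simp only [e3]
  push_cast
  rw [h3]

theorem wprog_le [DecidableEq I] {b : I → ℝ} (hb : ∀ i, 0 ≤ b i) {δ : I → ℤ} {i₀ i₁ : I}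
    (h01 : i₀ ≠ i₁) (hδ : δ i₀ ≠ δ i₁) {c : ℝ} (hc : 0 < c) (h0 : c ≤ b i₀) (h1 : c ≤ b i₁)
    (n : ℕ) : ∀ (x : ℤ) (m : ℕ), wprog b δ (δ i₀ - δ i₁) n x m ≤ wmid (∑ i, b i) c n m := by
  have hd : δ i₀ - δ i₁ ≠ 0 := sub_ne_zero.2 hδ
  set d := δ i₀ - δ i₁ with hd'
  induction n with
  | zero =>
    intro x m
    rcases Nat.eq_zero_or_pos m with rfl | hm
    · simp [wprog, wmid]
    · have e1 : wmid (∑ i, b i) c 0 m = 1 := by
        unfold wmid
        rw [Finset.sum_eq_single_of_mem (0 : ℤ)]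
        · simp [walk]
        · rw [Finset.mem_Ioc]; omega
        · intro s _ hs
          simp [walk, hs]
      rw [e1]
      unfold wprog
      by_cases hex : ∃ j ∈ Finset.range m, x + (j : ℤ) * d = 0
      · obtain ⟨j, hj, hj0⟩ := hex
        rw [Finset.sum_eq_single_of_mem j hj]
        · simp [wwords, hj0]
        · intro j' _ hj'
          have h3 : x + (j' : ℤ) * d ≠ 0 := by
            intro h4
            apply hj'
            have h5 : ((j' : ℤ) - j) * d = 0 := by linarith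
            have h6 := (mul_eq_zero.1 h5).resolve_right hd
            omega
          simp [wwords, h3]
      · push Not at hex
        rw [Finset.sum_eq_zero]
        · exact zero_le_one
        · intro j hj
          simp [wwords, hex j hj]
  | succ n ih =>
    intro x m
    rcases m with _ | m
    · simp [wprog, wmid]
    have e0 : ∀ F : I → ℝ, ∑ i, F i = F i₀ + F i₁ +
        ∑ i ∈ (Finset.univ.erase i₀).erase i₁, F i := by
      intro F
      rw [← Finset.add_sum_erase _ _ (Finset.mem_univ i₀),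
        ← Finset.add_sum_erase _ _ (Finset.mem_erase.2 ⟨h01.symm, Finset.mem_univ i₁⟩)]
      ring
    have e1 : wprog b δ d (n + 1) x (m + 1) =
        ∑ i, b i * wprog b δ d n (x - δ i) (m + 1) := by
      unfold wprog
      simp only [wwords]
      rw [Finset.sum_comm]
      refine Finset.sum_congr rfl fun i _ => ?_
      rw [Finset.mul_sum]
      refine Finset.sum_congr rfl fun j _ => ?_
      congr 2
      ring
    set M := wmid (∑ i, b i) c n (m + 1) with hM
    set p₀ := wprog b δ d n (x - δ i₀) (m + 1) with hp₀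
    set p₁ := wprog b δ d n (x - δ i₁) (m + 1) with hp₁
    have h3 : p₀ + p₁ ≤ wmid (∑ i, b i) c n (m + 2) + wmid (∑ i, b i) c n m := by
      have h4 := wprog_step b δ d n (x - δ i₀) m
      have e5 : x - δ i₀ + d = x - δ i₁ := by rw [hd']; ring
      rw [e5] at h4
      rw [hp₀, hp₁, h4]
      exact add_le_add (ih _ _) (ih _ _)
    have h5 : p₀ ≤ M := ih _ _
    have h6 : p₁ ≤ M := ih _ _
    have h7 : ∑ i ∈ (Finset.univ.erase i₀).erase i₁, b i * wprog b δ d n (x - δ i) (m + 1) ≤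
        (∑ i ∈ (Finset.univ.erase i₀).erase i₁, b i) * M := by
      rw [Finset.sum_mul]
      exact Finset.sum_le_sum fun i _ => mul_le_mul_of_nonneg_left (ih _ _) (hb i)
    have h8 : ∑ i, b i = b i₀ + b i₁ + ∑ i ∈ (Finset.univ.erase i₀).erase i₁, b i := e0 b
    rw [e1, e0, wmid_rec, ← hM]
    set R := ∑ i ∈ (Finset.univ.erase i₀).erase i₁, b i with hR
    have h9 : (b i₀ - c) * p₀ ≤ (b i₀ - c) * M := mul_le_mul_of_nonneg_left h5 (by linarith)
    have h10 : (b i₁ - c) * p₁ ≤ (b i₁ - c) * M := mul_le_mul_of_nonneg_left h6 (by linarith)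
    have h11 := mul_le_mul_of_nonneg_left h3 hc.le
    have h12 : (∑ i, b i - 2 * c) * M = (b i₀ - c) * M + (b i₁ - c) * M + R * M := by
      rw [h8]; ring
    rw [h12]
    linarith

/-- **The weighted Littlewood-Offord bound.** -/
theorem wwords_bound {b : I → ℝ} (hb : ∀ i, 0 ≤ b i) {δ : I → ℤ} {i₀ i₁ : I}
    (hδ : δ i₀ ≠ δ i₁) (h0 : 0 < b i₀) (h1 : 0 < b i₁) :
    ∃ C : ℝ, 0 ≤ C ∧ ∀ (n : ℕ) (x : ℤ), 1 ≤ n →
      wwords b δ n x * √(n : ℝ) ≤ C * (∑ i, b i) ^ n := by
  classical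
  have h01 : i₀ ≠ i₁ := fun h => hδ (by rw [h])
  set c := min (b i₀) (b i₁) / 2 with hc
  have hm : 0 < min (b i₀) (b i₁) := lt_min h0 h1
  have hc0 : 0 < c := by positivity
  have hc1 : c ≤ b i₀ := by have := min_le_left (b i₀) (b i₁); linarith
  have hc2 : c ≤ b i₁ := by have := min_le_right (b i₀) (b i₁); linarith
  have h4 : 4 * c ≤ ∑ i, b i := by
    have h5 : b i₀ + b i₁ ≤ ∑ i, b i := by
      rw [← Finset.sum_pair h01]
      exact Finset.sum_le_sum_of_subset_of_nonneg (Finset.subset_univ _) fun i _ _ => hb i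
    have h6 := min_le_left (b i₀) (b i₁)
    have h7 := min_le_right (b i₀) (b i₁)
    linarith
  obtain ⟨C, hC0, hC⟩ := walk_le hc0 h4
  refine ⟨2 * C, by positivity, fun n x hn => ?_⟩
  have h5 := wprog_le hb h01 hδ hc0 hc1 hc2 n x 1
  have e1 : wprog b δ (δ i₀ - δ i₁) n x 1 = wwords b δ n x := by simp [wprog]
  have e2 : wmid (∑ i, b i) c n 1 = walk (∑ i, b i) c n 0 + walk (∑ i, b i) c n 1 := by
    unfold wmid
    have : Finset.Ioc (-((1 : ℕ) : ℤ)) ((1 : ℕ) : ℤ) = {0, 1} := by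
      ext s; simp only [Finset.mem_Ioc, Finset.mem_insert, Finset.mem_singleton]; omega
    rw [this, Finset.sum_pair (by norm_num)]
  rw [e1, e2] at h5
  have h6 := mul_le_mul_of_nonneg_right h5 (Real.sqrt_nonneg (n : ℝ))
  have h7 := hC n 0 hn
  have h8 := hC n 1 hn
  linarith

end weights

end Pool.Agent.U282.TF
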